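import Mathlib
import Pool.Agent.SLX.TrivDefs
import Pool.Agent.SLX.Triv

/-!
# Finite complete ShortLex systems and undistorted subgroups

Let `C` and `D` be commuting subgroups of `G` with trivial intersection, `D ≠ 1`, and suppose that
the `D`-bundle `C \ G → C D \ G` has a trivialization `h : G → D` which is almost locally constant.
If `G` has a finite complete ShortLex rewriting system, then `C` is finitely generated and
undistorted in `G`.

Idea of the proof. Let `c` be in `C` and let `d₀` in `D` be such that `d₀ c` is as short as
possible; let `g` be a geodesic string for `d₀ c`. If the path of `g` changes the value of `h` at a
point whose distance to `D` lies between two constants `r₁` and `r₃`, then this point splits `c`.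
Otherwise the initial part of the path can be changed so that the path leaves the zone through the
sheet `h = j` with bounded `j`. Fix `y ≠ 1` in `D`. The path `y g` up to its next change of `h`,
followed by a bounded path back to `g`, has the same end point but passes the zone in the sheet
`h = y j`. The two strings are joined by moves through strings of length at most `|g| + const`, and
the number of crossings of the sheet `h = j` near `D` is not the same. So one of these strings
changes `h` at a point `c₁ d₁ f` whose distance to `D` is about `r₂`, and this splits
`c = c₁ (c₁⁻¹ c)` with bounded `c₁` such that `c₁⁻¹ c` is closer to `D` than `c`.
-/

open Pool.Agent.SLX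

namespace Pool.Agent.Results.MP_6a3c10_al.AlmostConstant

/-- Let `G` have a finite complete ShortLex rewriting system, for some finite ordered monoid
generating set. Let `C` and `D` be commuting subgroups of `G` with trivial intersection, `D` not
trivial, and `h : G → D` a map with `h (c d x) = d h x` for `c` in `C`, `d` in `D`, such that for
every `s` in `G` the elements `x` with `h (x s) ≠ h x` lie in finitely many cosets `C D f`. Then
`C` is finitely generated and undistorted in `G`. -/
theorem result (G : Type) [Group G] (hG : HasSystem G) (C D : Subgroup G) (h : G → D)
    (hh : IsTriv C D h) : Undistorted C :=
  undistorted_of_triv hG hh

end Pool.Agent.Results.MP_6a3c10_al.AlmostConstant
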