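import Mathlib
import Pool.Agent.SLX.Defs
import Pool.Agent.SLX.BS

/-!
# Baumslag-Solitar groups and finite complete ShortLex systems
-/

open Pool.Agent.SLX

namespace Pool.Agent.Results.MP_6a3c10_al.BaumslagSolitar

/-- If `|m|, |n| ≥ 2` and the Baumslag-Solitar group `⟨a, t | t a^m t⁻¹ = a^n⟩` has a finite
complete ShortLex rewriting system, for some finite ordered monoid generating set, then
`|m| = |n|`. -/
theorem result (m n : ℤ) (hm : 2 ≤ |m|) (hn : 2 ≤ |n|) (h : HasSystem (BS m n)) : |m| = |n| :=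
  bs_abs_eq hm hn h

end Pool.Agent.Results.MP_6a3c10_al.BaumslagSolitar
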