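import Mathlib
import Pool.Agent.SLX.Defs
import Pool.Agent.SLX.CAmalgam

/-!
# The groups `K *_C (C × D)` and finite complete ShortLex systems
-/

open Pool.Agent.SLX

namespace Pool.Agent.Results.MP_6a3c10_al.CentralAmalgams

/-- Let `K` be a group, `C` a subgroup of `K` and `D` a non-trivial group. If the amalgamated product
`K *_C (C × D)` has a finite complete ShortLex rewriting system, for some finite ordered monoid
generating set, then `C` is finitely generated and undistorted in `K`. -/
theorem result (K : Type) [Group K] (C : Subgroup K) (D : Type) [Group D] (hD : ∃ d : D, d ≠ 1)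
    (h : HasSystem (CAmalgam C D)) : Undistorted C :=
  CAmalgam.undistorted hD h

end Pool.Agent.Results.MP_6a3c10_al.CentralAmalgams
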