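import Mathlib
import Pool.Agent.SLX.Defs
import Pool.Agent.VS.Final
/-!
# Short conjugates in groups of finite asymptotic dimension with a finite complete ShortLex system
-/
namespace Pool.Agent.Results.MP_6a3c10_al.FiniteAsymptoticDimension
open Pool.Agent.SLX Pool.Agent.VNP

/-- Let `G` be a group of finite asymptotic dimension with a finite complete ShortLex rewriting
system for some finite ordered monoid generating set. Then there are a finite set `S` which
generates `G` as a monoid and a constant `C` such that, whenever a power `w ^ n` (`n > 0`) is a
product of at most `n * T` elements of `S`, the element `w` has a conjugate which is a product of at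
most `T + C` elements of `S`. -/
theorem result (G : Type) [Group G] (D : ℕ) (hD : AsdimLE G D) (h : HasSystem G) :
    ∃ S : Set G, S.Finite ∧ Submonoid.closure S = ⊤ ∧ ∃ C : ℕ, ∀ (w : G) (n T : ℕ), 0 < n →
      IsShort S (n * T) (w ^ n) → ∃ x : G, IsShort S (T + C) (x⁻¹ * w * x) :=
  Pool.Agent.VS.conj_length G hD h

end Pool.Agent.Results.MP_6a3c10_al.FiniteAsymptoticDimension
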