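import Mathlib
import Pool.Agent.SLX.Defs
import Pool.Agent.SLN.Final
/-!
# A finite-by-nilpotent group with a finite complete ShortLex system is virtually abelian
-/
namespace Pool.Agent.Results.MP_6a3c10_al.FiniteByNilpotent
open Pool.Agent.SLX

/-- Let `T` be a finite normal subgroup of `G` with `G / T` nilpotent. If `G` has a finite complete
ShortLex rewriting system for some finite ordered monoid generating set, then `G` has an abelian
subgroup of finite index. -/
theorem result (G : Type) [Group G] (T : Subgroup G) [T.Normal] [Finite T]
    [Group.IsNilpotent (G ⧸ T)] (h : HasSystem G) :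
    ∃ H : Subgroup G, H.FiniteIndex ∧ ∀ a ∈ H, ∀ b ∈ H, a * b = b * a :=
  Pool.Agent.SLN.main T h

end Pool.Agent.Results.MP_6a3c10_al.FiniteByNilpotent
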