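import Mathlib
import Pool.Agent.SLX.Defs
import Pool.Agent.VS.RFinal
/-!
# Solvable subgroups of residually finite groups with a finite complete ShortLex system
-/
namespace Pool.Agent.Results.MP_6a3c10_al.ResiduallyFinite
open Pool.Agent.SLX Pool.Agent.VNP Pool.Agent.VN

/-- Let `G` be a residually finite group of finite asymptotic dimension with a finite complete
ShortLex rewriting system for some finite ordered monoid generating set. Then every virtually
solvable subgroup `P` of `G` is finitely generated and undistorted in `G`, and has an abelian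
subgroup of finite index. -/
theorem result (G : Type) [Group G] (D : ℕ) (hD : AsdimLE G D) (hr : ResFin G) (h : HasSystem G)
    (P P₀ : Subgroup G) (h₀ : P₀ ≤ P) (hi : P₀.relIndex P ≠ 0) (hs : Group.IsSolvable P₀) :
    Undistorted P ∧
      ∃ H : Subgroup G, H ≤ P ∧ H.relIndex P ≠ 0 ∧ ∀ a ∈ H, ∀ b ∈ H, a * b = b * a :=
  ⟨(Pool.Agent.VS.rfinal_solvable h hD hr P P₀ h₀ hi hs).2.2,
    (Pool.Agent.VS.rfinal_solvable h hD hr P P₀ h₀ hi hs).1⟩

end Pool.Agent.Results.MP_6a3c10_al.ResiduallyFinite
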