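import Mathlib
import Pool.Agent.SLX.Defs
import Pool.Agent.VN.Main
/-!
# A virtually nilpotent group with a finite complete ShortLex system is virtually abelian
-/
namespace Pool.Agent.Results.MP_6a3c10_al.VirtuallyNilpotent
open Pool.Agent.SLX

/-- Let `G` be a virtually nilpotent group. If `G` has a finite complete ShortLex rewriting system
for some finite ordered monoid generating set, then `G` has an abelian subgroup of finite index. -/
theorem result (G : Type) [Group G] (hG : Group.IsVirtuallyNilpotent G) (h : HasSystem G) :
    ∃ H : Subgroup G, H.FiniteIndex ∧ ∀ a ∈ H, ∀ b ∈ H, a * b = b * a :=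
  Pool.Agent.VN.main hG h

end Pool.Agent.Results.MP_6a3c10_al.VirtuallyNilpotent
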