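import Mathlib
import Pool.Agent.SLX.Defs
import Pool.Agent.VS.Final
/-!
# A virtually polycyclic group with a finite complete ShortLex system is virtually abelian
-/
namespace Pool.Agent.Results.MP_6a3c10_al.VirtuallyPolycyclic
open Pool.Agent.SLX

/-- Let `G` be a virtually polycyclic group: it has a solvable subgroup `H` of finite index and all
its subgroups are finitely generated. If `G` has a finite complete ShortLex rewriting system for
some finite ordered monoid generating set, then `G` has an abelian subgroup of finite index. -/
theorem result (G : Type) [Group G] (H : Subgroup G) [H.FiniteIndex] [Group.IsSolvable H]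
    (hfg : ∀ K : Subgroup G, K.FG) (h : HasSystem G) :
    ∃ B : Subgroup G, B.FiniteIndex ∧ ∀ a ∈ B, ∀ b ∈ B, a * b = b * a :=
  Pool.Agent.VS.vpc H hfg h

end Pool.Agent.Results.MP_6a3c10_al.VirtuallyPolycyclic
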