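import Mathlib
import Pool.Agent.SLX.Defs
import Pool.Agent.SLA.Main
import Pool.Agent.VS.RankFin
/-!
# Virtually solvable groups of finite rank with a finite complete ShortLex system
-/
namespace Pool.Agent.Results.MP_6a3c10_al.VirtuallySolvable
open Pool.Agent.SLX Pool.Agent.SLA

/-- Let `G` be a virtually solvable group of finite (Pruefer) rank: it has a solvable subgroup `H`
of finite index and a number `r` such that every finitely generated subgroup of `H` is generated by
at most `r` elements. If `G` has a finite complete ShortLex rewriting system for some finite ordered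
monoid generating set, then `G` has an abelian subgroup of finite index, and `G` is
ShortLex-automatic with respect to some finite ordered monoid generating set. -/
theorem result (G : Type) [Group G] (H : Subgroup G) [H.FiniteIndex] [Group.IsSolvable H] (r : ℕ)
    (hr : ∀ K : Subgroup G, K ≤ H → K.FG →
      ∃ T : Finset G, T.card ≤ r ∧ Subgroup.closure (T : Set G) = K) (h : HasSystem G) :
    (∃ B : Subgroup G, B.FiniteIndex ∧ ∀ a ∈ B, ∀ b ∈ B, a * b = b * a) ∧
      ShortLexAutomatic G := by
  obtain ⟨B, hB, hc⟩ := Pool.Agent.VS.rank_main h H r hr
  exact ⟨⟨B, hB, hc⟩, Pool.Agent.SLA.of_system h B hB hc⟩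

end Pool.Agent.Results.MP_6a3c10_al.VirtuallySolvable
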